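import Pool.Agent.Y212.HJ.Plane

/-!
# Automorphisms of the affine plane over a Hjelmslev ring
-/

set_option autoImplicit false

namespace Pool.Agent.Y212.HJ

open Pool.Agent.Results.MP_43980c_co.TranslationsNotGroup

universe u

variable {R : Type u} [CommRing R]

/-- A set of automorphisms with two elements whose product is outside is not a subgroup. -/
lemma no_subgroup {G : Type*} [Group G] {S : Set G} {σ τ : G} (hσ : σ ∈ S) (hτ : τ ∈ S)
    (h : σ * τ ∉ S) : ¬ ∃ H : Subgroup G, (H : Set G) = S := by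
  rintro ⟨H, hH⟩
  have h1 : σ ∈ H := by show σ ∈ (H : Set G); rw [hH]; exact hσ
  have h2 : τ ∈ H := by show τ ∈ (H : Set G); rw [hH]; exact hτ
  have h3 : σ * τ ∈ (H : Set G) := H.mul_mem h1 h2
  rw [hH] at h3
  exact h h3

/-! ### The maps `(x, y) ↦ (x + a, y + c)` -/

def vecPt (a c : R) : Equiv.Perm (R × R) where
  toFun := fun (x, y) => (x + a, y + c)
  invFun := fun (x, y) => (x - a, y - c)
  left_inv := by rintro ⟨x, y⟩; simp
  right_inv := by rintro ⟨x, y⟩; simp

def vecBl (a c : R) : Equiv.Perm (Block R) where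
  toFun := fun b => match b with
    | Sum.inl (m, b) => Sum.inl (m, b + c - m * a)
    | Sum.inr (n, b) => Sum.inr (n, b + a - n.1 * c)
  invFun := fun b => match b with
    | Sum.inl (m, b) => Sum.inl (m, b - c + m * a)
    | Sum.inr (n, b) => Sum.inr (n, b - a + n.1 * c)
  left_inv := by
    rintro (⟨m, b⟩ | ⟨m, b⟩)
    · show (Sum.inl (m, b + c - m * a - c + m * a) : Block R) = _
      congr 2; ring
    · show (Sum.inr (m, b + a - m.1 * c - a + m.1 * c) : Block R) = _
      congr 2; ring
  right_inv := by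
    rintro (⟨m, b⟩ | ⟨m, b⟩)
    · show (Sum.inl (m, b - c + m * a + c - m * a) : Block R) = _
      congr 2; ring
    · show (Sum.inr (m, b - a + m.1 * c + a - m.1 * c) : Block R) = _
      congr 2; ring

def vec (a c : R) : automorphisms (On R) :=
  ⟨(vecPt a c, vecBl a c), by
    rintro ⟨x, y⟩ (⟨m, b⟩ | ⟨m, b⟩)
    · show y + c = m * (x + a) + (b + c - m * a) ↔ y = m * x + b
      constructor
      · intro h; linear_combination h
      · intro h; linear_combination h
    · show x + a = m.1 * (y + c) + (b + a - m.1 * c) ↔ x = m.1 * y + b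
      constructor
      · intro h; linear_combination h
      · intro h; linear_combination h⟩

lemma vec_pt (a c x y : R) : (vec a c).1.1 (x, y) = (x + a, y + c) := rfl
lemma vec_inl (a c m b : R) : (vec a c).1.2 (Sum.inl (m, b)) = Sum.inl (m, b + c - m * a) := rfl
lemma vec_inr (a c : R) (n : {n : R // ¬ IsUnit n}) (b : R) :
    (vec a c).1.2 (Sum.inr (n, b)) = Sum.inr (n, b + a - n.1 * c) := rfl

/-! ### The maps `(x, y) ↦ (x, u y + c)` -/

def hom1Pt (u : Rˣ) (c : R) : Equiv.Perm (R × R) where
  toFun := fun (x, y) => (x, u * y + c)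
  invFun := fun (x, y) => (x, (u⁻¹ : Rˣ) * (y - c))
  left_inv := by rintro ⟨x, y⟩; simp
  right_inv := by rintro ⟨x, y⟩; simp

def hom1Bl (u : Rˣ) (c : R) : Equiv.Perm (Block R) where
  toFun := fun b => match b with
    | Sum.inl (m, b) => Sum.inl (u * m, u * b + c)
    | Sum.inr (n, b) => Sum.inr (⟨n.1 * (u⁻¹ : Rˣ), nonunit_mul_right n.2 _⟩,
        b - n.1 * (u⁻¹ : Rˣ) * c)
  invFun := fun b => match b with
    | Sum.inl (m, b) => Sum.inl ((u⁻¹ : Rˣ) * m, (u⁻¹ : Rˣ) * (b - c))
    | Sum.inr (n, b) => Sum.inr (⟨n.1 * u, nonunit_mul_right n.2 _⟩, b + n.1 * c)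
  left_inv := by
    rintro (⟨m, b⟩ | ⟨m, b⟩)
    · simp
    · simp
  right_inv := by
    rintro (⟨m, b⟩ | ⟨m, b⟩)
    · simp
    · simp

def hom1 (u : Rˣ) (c : R) : automorphisms (On R) :=
  ⟨(hom1Pt u c, hom1Bl u c), by
    rintro ⟨x, y⟩ (⟨m, b⟩ | ⟨m, b⟩)
    · show u * y + c = u * m * x + (u * b + c) ↔ y = m * x + b
      constructor
      · intro h
        have h' : (u : R) * y = u * (m * x + b) := by linear_combination h
        exact u.isUnit.mul_left_cancel h'
      · intro h; linear_combination (u : R) * h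
    · show x = m.1 * (u⁻¹ : Rˣ) * (u * y + c) + (b - m.1 * (u⁻¹ : Rˣ) * c) ↔ x = m.1 * y + b
      have hu : ((u⁻¹ : Rˣ) : R) * u = 1 := Units.inv_mul u
      constructor
      · intro h; linear_combination h + m.1 * y * hu
      · intro h; linear_combination h - m.1 * y * hu⟩

lemma hom1_pt (u : Rˣ) (c x y : R) : (hom1 u c).1.1 (x, y) = (x, u * y + c) := rfl
lemma hom1_inr (u : Rˣ) (c : R) (n : {n : R // ¬ IsUnit n}) (b : R) :
    (hom1 u c).1.2 (Sum.inr (n, b)) = Sum.inr (⟨n.1 * (u⁻¹ : Rˣ), nonunit_mul_right n.2 _⟩,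
        b - n.1 * (u⁻¹ : Rˣ) * c) := rfl

/-- For every twist (in particular for the slopes) the translations are not closed under
composition. -/
theorem not_closed (h : IsHjelmslevRing R) (T : Twist R) :
    ∃ σ ∈ translations (On R) (par T), ∃ τ ∈ translations (On R) (par T),
      σ * τ ∉ translations (On R) (par T) := by
  have := h.nontrivial
  have := h.isLocalRing
  obtain ⟨t, ht0, ht⟩ := h.notField
  have hu : IsUnit (1 + t) := by
    by_contra hn
    rw [← r_zero_iff, r_add, (r_zero_iff t).2 ht, add_zero, r_one] at hn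
    exact one_ne_zero hn
  obtain ⟨u, hu⟩ := hu
  refine ⟨vec 0 (-1), ?_, hom1 u 1, ?_, ?_⟩
  · refine ⟨⟨Sum.inr (⟨0, not_isUnit_zero⟩, 0), ?_⟩, Or.inr ?_⟩
    · rintro (⟨m, b⟩ | ⟨m, b⟩) hp
      · simp [par, label] at hp
      · simp only [par, label, Sum.inr.injEq] at hp
        subst hp
        rw [vec_inr]
        simp
    · rintro ⟨x, y⟩ hxy
      rw [vec_pt] at hxy
      have := congrArg Prod.snd hxy
      simp at this
  · refine ⟨⟨Sum.inr (⟨0, not_isUnit_zero⟩, 0), ?_⟩, Or.inr ?_⟩
    · rintro (⟨m, b⟩ | ⟨m, b⟩) hp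
      · simp [par, label] at hp
      · simp only [par, label, Sum.inr.injEq] at hp
        subst hp
        rw [hom1_inr]
        simp
    · rintro ⟨x, y⟩ hxy
      rw [hom1_pt, hu] at hxy
      have h2 : (1 + t) * y + 1 = y := congrArg Prod.snd hxy
      apply ht
      have h3 : t * (-y) = 1 := by linear_combination -h2
      exact IsUnit.of_mul_eq_one _ h3
  · rintro ⟨_, h1 | h1⟩
    · have h2 : (vec (0 : R) (-1) * hom1 u 1).1.1 (0, 1) = (0, 1) := by rw [h1]; rfl
      have h3 : (vec (0 : R) (-1) * hom1 u 1).1.1 (0, 1) = (0 + 0, (u : R) * 1 + 1 + -1) := rfl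
      rw [h3, hu] at h2
      have h4 : (1 + t) * 1 + 1 + -1 = (1 : R) := congrArg Prod.snd h2
      apply ht0
      linear_combination h4
    · apply h1 (0, 0)
      show (0 + 0, (u : R) * 0 + 1 + -1) = ((0 : R), (0 : R))
      simp

/-- `vec a c` is always a translation for the slopes. -/
lemma vec_trans (h : IsHjelmslevRing R) (a c : R) :
    vec a c ∈ translations (On R) (par (slope R)) := by
  refine ⟨?_, ?_⟩
  · by_cases hd : a ∣ c
    · obtain ⟨m, rfl⟩ := hd
      refine ⟨Sum.inl (m, 0), ?_⟩
      rintro (⟨n, b⟩ | ⟨n, b⟩) hp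
      · simp only [par, label, slope, Equiv.Perm.coe_one, id_eq, Sum.inl.injEq] at hp
        subst hp
        rw [vec_inl]
        congr 2; ring
      · simp [par, label] at hp
    · obtain ⟨n, hn⟩ := (h.chain a c).resolve_left hd
      have hnn : ¬ IsUnit n := by
        intro hu
        apply hd
        obtain ⟨v, rfl⟩ := hu
        refine ⟨(v⁻¹ : Rˣ), ?_⟩
        rw [hn, mul_assoc, Units.mul_inv, mul_one]
      refine ⟨Sum.inr (⟨n, hnn⟩, 0), ?_⟩
      rintro (⟨m, b⟩ | ⟨m, b⟩) hp
      · simp [par, label] at hp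
      · simp only [par, label, Sum.inr.injEq] at hp
        subst hp
        rw [vec_inr, hn]
        congr 2; ring
  · by_cases h0 : a = 0 ∧ c = 0
    · left
      obtain ⟨rfl, rfl⟩ := h0
      apply Subtype.ext
      apply Prod.ext
      · apply Equiv.ext
        rintro ⟨x, y⟩
        show (x + 0, y + 0) = (x, y)
        simp
      · apply Equiv.ext
        rintro (⟨m, b⟩ | ⟨m, b⟩)
        · show (Sum.inl (m, b + 0 - m * 0) : Block R) = Sum.inl (m, b)
          simp
        · show (Sum.inr (m, b + 0 - m.1 * 0) : Block R) = Sum.inr (m, b)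
          simp
    · right
      rintro ⟨x, y⟩ hxy
      rw [vec_pt] at hxy
      apply h0
      simp only [Prod.mk.injEq, add_eq_left] at hxy
      exact hxy

lemma vec_dil (T : Twist R) [IsLocalRing R] (a c : R) (hc : ¬ IsUnit c) :
    IsDilatation (par T) (vec a c) := by
  rintro (⟨m, b⟩ | ⟨m, b⟩)
  · rw [vec_inl]
    simp only [par, label, Sum.inl.injEq]
    by_cases hm : IsUnit m
    · rw [T.fix _ _ hm, T.fix _ _ hm]
    · rw [T.congr b (b + c - m * a)]
      rw [← r_eq_iff, r_sub, r_add, r_mul, (r_zero_iff c).2 hc, (r_zero_iff m).2 hm]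
      ring
  · rw [vec_inr]
    rfl

lemma vec_dil_slope (a c : R) : IsDilatation (par (slope R)) (vec a c) := by
  rintro (⟨m, b⟩ | ⟨m, b⟩)
  · rw [vec_inl]; rfl
  · rw [vec_inr]; rfl

/-- A dilatation for the slopes which is a translation is one of the maps `vec a c`. -/
lemma eq_vec [Nontrivial R] (g : automorphisms (On R))
    (hT : g ∈ translations (On R) (par (slope R))) (hD : IsDilatation (par (slope R)) g) :
    ∃ a c : R, g = vec a c := by
  -- the images of the blocks
  have hinl : ∀ m b : R, ∃ b' : R, g.1.2 (Sum.inl (m, b)) = Sum.inl (m, b') := by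
    intro m b
    have := hD (Sum.inl (m, b))
    rcases hg : g.1.2 (Sum.inl (m, b)) with ⟨m', b'⟩ | ⟨m', b'⟩
    · rw [hg] at this
      simp only [par, label, slope, Equiv.Perm.coe_one, id_eq, Sum.inl.injEq] at this
      exact ⟨b', by rw [this]⟩
    · rw [hg] at this
      simp [par, label] at this
  have hinr : ∀ (m : {n : R // ¬ IsUnit n}) (b : R), ∃ b' : R,
      g.1.2 (Sum.inr (m, b)) = Sum.inr (m, b') := by
    intro m b
    have := hD (Sum.inr (m, b))
    rcases hg : g.1.2 (Sum.inr (m, b)) with ⟨m', b'⟩ | ⟨m', b'⟩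
    · rw [hg] at this
      simp [par, label] at this
    · rw [hg] at this
      simp only [par, label, Sum.inr.injEq] at this
      exact ⟨b', by rw [this]⟩
  choose H hH using hinl
  choose V hV using hinr
  have hg : ∀ (p : R × R) (b : Block R), On R p b → On R (g.1.1 p) (g.1.2 b) :=
    fun p b h => (g.2 p b).2 h
  set z : {n : R // ¬ IsUnit n} := ⟨0, not_isUnit_zero⟩ with hz
  -- the images of the points
  have hpt : ∀ x y : R, g.1.1 (x, y) = (V z x, H 0 y) := by
    intro x y
    have h1 := hg (x, y) (Sum.inl (0, y)) (by simp [On])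
    have h2 := hg (x, y) (Sum.inr (z, x)) (by simp [On, hz])
    rw [hH] at h1
    rw [hV] at h2
    rcases hq : g.1.1 (x, y) with ⟨x', y'⟩
    rw [hq] at h1 h2
    simp only [On, hz, zero_mul, zero_add] at h1 h2
    rw [h1, h2]
  set F : R → R := V z with hF
  set G : R → R := H 0 with hG
  have e1 : ∀ m b x : R, G (m * x + b) = m * F x + H m b := by
    intro m b x
    have h1 := hg (x, m * x + b) (Sum.inl (m, b)) (by simp [On])
    rw [hH, hpt] at h1
    exact h1
  have e2 : ∀ m b : R, H m b = G b - m * F 0 := by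
    intro m b
    have := e1 m b 0
    rw [mul_zero, zero_add] at this
    linear_combination -this
  set l : R := F 1 - F 0 with hl
  have e3 : ∀ m : R, G m = G 0 + m * l := by
    intro m
    have := e1 m 0 1
    rw [mul_one, add_zero, e2] at this
    rw [this, hl]; ring
  have e4 : ∀ x : R, F x = F 0 + x * l := by
    intro x
    have h1 := e1 1 0 x
    rw [one_mul, add_zero, e2, one_mul, one_mul, e3] at h1
    linear_combination -h1
  have e5 : ∀ (n : {n : R // ¬ IsUnit n}) (b y : R), F (n.1 * y + b) = n.1 * G y + V n b := by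
    intro n b y
    have h1 := hg (n.1 * y + b, y) (Sum.inr (n, b)) (by simp [On])
    rw [hV, hpt] at h1
    exact h1
  -- the scaling factor is one
  have hl1 : l = 1 := by
    obtain ⟨⟨b, hb⟩, _⟩ := hT
    rcases b with ⟨m, b⟩ | ⟨n, b⟩
    · have h1 : ∀ b' : R, H m b' = b' := by
        intro b'
        have := hb (Sum.inl (m, b')) rfl
        rw [hH] at this
        simpa using this
      have h2 := h1 0
      have h3 := h1 1
      rw [e2] at h2 h3
      rw [e3 1] at h3
      linear_combination h3 - h2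
    · have h1 : ∀ b' : R, V n b' = b' := by
        intro b'
        have := hb (Sum.inr (n, b')) rfl
        rw [hV] at this
        simpa using this
      have h2 := e5 n 0 0
      have h3 := e5 n 1 0
      rw [h1, mul_zero, zero_add] at h2 h3
      rw [e4 1] at h3
      linear_combination h3 - h2
  refine ⟨F 0, G 0, ?_⟩
  apply Subtype.ext
  apply Prod.ext
  · apply Equiv.ext
    rintro ⟨x, y⟩
    rw [hpt, vec_pt, e4 x, e3 y, hl1]
    exact Prod.ext (by ring) (by ring)
  · apply Equiv.ext
    rintro (⟨m, b⟩ | ⟨m, b⟩)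
    · rw [hH, vec_inl, e2, e3 b, hl1]
      congr 2; ring
    · rw [hV, vec_inr]
      have h1 := e5 m b 0
      rw [mul_zero, zero_add, e4 b, hl1] at h1
      congr 2
      linear_combination -h1

/-- For the slopes, the translations which are dilatations form a group, which is sharply
transitive on the points. -/
theorem slope_group (h : IsHjelmslevRing R) :
    ∃ H : Subgroup (automorphisms (On R)), (H : Set (automorphisms (On R))) =
        dilTransl (slope R) ∧ ∀ p q : R × R, ∃! g, g ∈ H ∧ g.1.1 p = q := by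
  have := h.nontrivial
  have key : ∀ g : automorphisms (On R), g ∈ dilTransl (slope R) ↔ ∃ a c : R, g = vec a c := by
    intro g
    constructor
    · rintro ⟨h1, h2⟩
      exact eq_vec g h1 h2
    · rintro ⟨a, c, rfl⟩
      exact ⟨vec_trans h a c, vec_dil_slope a c⟩
  have hmul : ∀ a c a' c' : R, vec a c * vec a' c' = vec (a' + a) (c' + c) := by
    intro a c a' c'
    apply Subtype.ext
    apply Prod.ext
    · apply Equiv.ext
      rintro ⟨x, y⟩
      show (x + a' + a, y + c' + c) = (x + (a' + a), y + (c' + c))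
      rw [add_assoc, add_assoc]
    · apply Equiv.ext
      rintro (⟨m, b⟩ | ⟨m, b⟩)
      · show (Sum.inl (m, b + c' - m * a' + c - m * a) : Block R) =
          Sum.inl (m, b + (c' + c) - m * (a' + a))
        congr 2; ring
      · show (Sum.inr (m, b + a' - m.1 * c' + a - m.1 * c) : Block R) =
          Sum.inr (m, b + (a' + a) - m.1 * (c' + c))
        congr 2; ring
  have hone : (1 : automorphisms (On R)) = vec 0 0 := by
    apply Subtype.ext
    apply Prod.ext
    · apply Equiv.ext
      rintro ⟨x, y⟩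
      show (x, y) = (x + 0, y + 0)
      simp
    · apply Equiv.ext
      rintro (⟨m, b⟩ | ⟨m, b⟩)
      · show (Sum.inl (m, b) : Block R) = Sum.inl (m, b + 0 - m * 0)
        simp
      · show (Sum.inr (m, b) : Block R) = Sum.inr (m, b + 0 - m.1 * 0)
        simp
  have hinv : ∀ a c : R, (vec a c)⁻¹ = vec (-a) (-c) := by
    intro a c
    rw [inv_eq_iff_mul_eq_one, hmul, hone]
    congr 1 <;> ring
  refine ⟨{ carrier := dilTransl (slope R)
            mul_mem' := ?_
            one_mem' := ?_
            inv_mem' := ?_ }, rfl, ?_⟩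
  · intro g g' hg hg'
    obtain ⟨a, c, rfl⟩ := (key g).1 hg
    obtain ⟨a', c', rfl⟩ := (key g').1 hg'
    exact (key _).2 ⟨_, _, hmul a c a' c'⟩
  · exact (key _).2 ⟨0, 0, hone⟩
  · intro g hg
    obtain ⟨a, c, rfl⟩ := (key g).1 hg
    exact (key _).2 ⟨_, _, hinv a c⟩
  · rintro ⟨x, y⟩ ⟨z, w⟩
    refine ⟨vec (z - x) (w - y), ⟨(key _).2 ⟨_, _, rfl⟩, ?_⟩, ?_⟩
    · rw [vec_pt]
      exact Prod.ext (by ring) (by ring)
    · rintro g ⟨hg, hgp⟩
      obtain ⟨a, c, rfl⟩ := (key g).1 hg
      rw [vec_pt] at hgp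
      simp only [Prod.mk.injEq] at hgp
      rw [← hgp.1, ← hgp.2]
      congr 1 <;> ring

open Classical in
/-- The twist which exchanges two nonunits on the blocks `y = m x + b` with a unit `b`. -/
noncomputable def swapTwist [IsLocalRing R] (s t : R) (hs : ¬ IsUnit s) (ht : ¬ IsUnit t) :
    Twist R where
  perm b := if IsUnit b then Equiv.swap s t else 1
  fix := by
    intro b m hm
    split_ifs
    · exact Equiv.swap_apply_of_ne_of_ne (fun h => hs (h ▸ hm)) (fun h => ht (h ▸ hm))
    · rfl
  congr := by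
    intro b c hbc
    have : IsUnit b ↔ IsUnit c := by
      rw [← not_iff_not, ← r_zero_iff, ← r_zero_iff]
      rw [← r_eq_iff] at hbc
      rw [hbc]
    simp only [this]

open Classical in
/-- If there are at least three nonunits, then for some twist the translations which are
dilatations are not closed under composition. -/
theorem twisted (h : IsHjelmslevRing R)
    (h3 : ∃ s t : R, s ≠ 0 ∧ t ≠ 0 ∧ s ≠ t ∧ ¬ IsUnit s ∧ ¬ IsUnit t) :
    ∃ T : Twist R, ∃ σ ∈ dilTransl T, ∃ τ ∈ dilTransl T,
      σ * τ ∉ translations (On R) (par T) := by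
  have := h.nontrivial
  have := h.isLocalRing
  obtain ⟨s, t, hs0, ht0, hst, hs, ht⟩ := h3
  have hp0 : ∀ b : R, (swapTwist s t hs ht).perm b 0 = 0 := by
    intro b
    show (if IsUnit b then Equiv.swap s t else 1 : Equiv.Perm R) 0 = 0
    split_ifs
    · exact Equiv.swap_apply_of_ne_of_ne (Ne.symm hs0) (Ne.symm ht0)
    · rfl
  refine ⟨swapTwist s t hs ht, vec 1 0, ⟨⟨?_, ?_⟩, ?_⟩, vec 0 s, ⟨⟨?_, ?_⟩, ?_⟩, ?_⟩
  · refine ⟨Sum.inl (0, 0), ?_⟩
    rintro (⟨m, b⟩ | ⟨m, b⟩) hp
    · simp only [par, label, Sum.inl.injEq] at hp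
      rw [hp0, ← hp0 b] at hp
      have hm := (Equiv.injective _) hp
      subst hm
      rw [vec_inl]
      simp
    · simp [par, label] at hp
  · right
    rintro ⟨x, y⟩ hxy
    rw [vec_pt] at hxy
    have := congrArg Prod.fst hxy
    simp at this
  · exact vec_dil _ _ _ not_isUnit_zero
  · refine ⟨Sum.inr (⟨0, not_isUnit_zero⟩, 0), ?_⟩
    rintro (⟨m, b⟩ | ⟨m, b⟩) hp
    · simp [par, label] at hp
    · simp only [par, label, Sum.inr.injEq] at hp
      subst hp
      rw [vec_inr]
      simp
  · right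
    rintro ⟨x, y⟩ hxy
    rw [vec_pt] at hxy
    have := congrArg Prod.snd hxy
    simp only [add_eq_left] at this
    exact hs0 this
  · exact vec_dil _ _ _ hs
  · rintro ⟨⟨b, hb⟩, _⟩
    have hfix : ∀ m b : R, (vec (1 : R) 0 * vec 0 s).1.2 (Sum.inl (m, b)) = Sum.inl (m, b) →
        m = s := by
      intro m b hh
      have h' : (Sum.inl (m, b + s - m * 0 + 0 - m * 1) : Block R) = Sum.inl (m, b) := hh
      simp only [Sum.inl.injEq, Prod.mk.injEq, true_and] at h'
      linear_combination -h'
    rcases b with ⟨m, b⟩ | ⟨n, b⟩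
    · have hm := hfix m b (hb _ rfl)
      subst hm
      by_cases hbu : IsUnit b
      · have hpar : par (swapTwist m t hs ht) (Sum.inl (m, b)) (Sum.inl (t, 0)) := by
          show (Sum.inl ((if IsUnit b then Equiv.swap m t else 1 : Equiv.Perm R) m) :
            R ⊕ {n : R // ¬ IsUnit n}) =
            Sum.inl ((if IsUnit (0 : R) then Equiv.swap m t else 1 : Equiv.Perm R) t)
          rw [if_pos hbu, if_neg not_isUnit_zero, Equiv.swap_apply_left]
          rfl
        exact hst (hfix _ _ (hb _ hpar)).symm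
      · have hpar : par (swapTwist m t hs ht) (Sum.inl (m, b)) (Sum.inl (t, 1)) := by
          show (Sum.inl ((if IsUnit b then Equiv.swap m t else 1 : Equiv.Perm R) m) :
            R ⊕ {n : R // ¬ IsUnit n}) =
            Sum.inl ((if IsUnit (1 : R) then Equiv.swap m t else 1 : Equiv.Perm R) t)
          rw [if_neg hbu, if_pos isUnit_one, Equiv.swap_apply_right]
          rfl
        exact hst (hfix _ _ (hb _ hpar)).symm
    · have h1 := hb (Sum.inr (n, b)) rfl
      have h' : (Sum.inr (n, b + 0 - n.1 * s + 1 - n.1 * 0) : Block R) = Sum.inr (n, b) := h1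
      simp only [Sum.inr.injEq, Prod.mk.injEq, true_and] at h'
      apply n.2
      have h2 : n.1 * s = 1 := by linear_combination -h'
      exact IsUnit.of_mul_eq_one _ h2

end Pool.Agent.Y212.HJ
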