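import Mathlib
import Pool.Agent.Results.MP_43980c_co.TranslationsNotGroup

/-!
# Affine Hjelmslev planes over commutative Hjelmslev rings: definitions
-/

set_option autoImplicit false

namespace Pool.Agent.Y212.HJ

open Pool.Agent.Results.MP_43980c_co.TranslationsNotGroup

universe u

/-- Commutative (affine) Hjelmslev rings which are not fields: of any two elements one divides the
other, every nonunit is a zero divisor, and there is a nonzero nonunit. -/
structure IsHjelmslevRing (R : Type u) [CommRing R] : Prop where
  chain : ∀ a b : R, a ∣ b ∨ b ∣ a
  zeroDivisor : ∀ a : R, ¬ IsUnit a → ∃ s : R, s ≠ 0 ∧ s * a = 0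
  notField : ∃ t : R, t ≠ 0 ∧ ¬ IsUnit t

/-- The blocks of the affine plane over `R` (the points are the elements of `R × R`):
`inl (m, b)` is the line `y = m x + b`, and `inr (n, b)`, with a nonunit `n`, is the line
`x = n y + b`. -/
abbrev Block (R : Type u) [CommRing R] : Type u := (R × R) ⊕ ({n : R // ¬ IsUnit n} × R)

/-- Incidence. -/
def On (R : Type u) [CommRing R] : R × R → Block R → Prop
  | (x, y), Sum.inl (m, b) => y = m * x + b
  | (x, y), Sum.inr (n, b) => x = n.1 * y + b

/-- A twist: for every `b` a permutation of `R` which fixes all the units (so that it permutes the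
nonunits), and which depends only on `b` modulo the nonunits. -/
structure Twist (R : Type u) [CommRing R] where
  perm : R → Equiv.Perm R
  fix : ∀ b m : R, IsUnit m → perm b m = m
  congr : ∀ b c : R, ¬ IsUnit (b - c) → perm b = perm c

/-- The trivial twist. -/
def slope (R : Type u) [CommRing R] : Twist R := ⟨fun _ => 1, fun _ _ _ => rfl, fun _ _ _ => rfl⟩

/-- The label of a block: its slope, changed by the twist. -/
def label {R : Type u} [CommRing R] (T : Twist R) : Block R → R ⊕ {n : R // ¬ IsUnit n}
  | Sum.inl (m, b) => Sum.inl (T.perm b m)
  | Sum.inr (n, _) => Sum.inr n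

/-- The parallelism given by a twist; for the trivial twist blocks are parallel if and only if they
have the same slope. -/
def par {R : Type u} [CommRing R] (T : Twist R) (B C : Block R) : Prop := label T B = label T C

/-- The translations which map every block to a parallel one. -/
def dilTransl {R : Type u} [CommRing R] (T : Twist R) : Set (automorphisms (On R)) :=
  {g | g ∈ translations (On R) (par T) ∧ IsDilatation (par T) g}

/-- Some product of two translations is not a translation. -/
def ProductFails {R : Type u} [CommRing R] (T : Twist R) : Prop :=
  ∃ σ ∈ translations (On R) (par T), ∃ τ ∈ translations (On R) (par T),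
    σ * τ ∉ translations (On R) (par T)

/-- The translations form a subgroup of the automorphism group. -/
def TranslGroup {R : Type u} [CommRing R] (T : Twist R) : Prop :=
  ∃ H : Subgroup (automorphisms (On R)), (H : Set (automorphisms (On R))) =
    translations (On R) (par T)

/-- Some product of two translations which map every block to a parallel one is not a
translation. -/
def DilProductFails {R : Type u} [CommRing R] (T : Twist R) : Prop :=
  ∃ σ ∈ dilTransl T, ∃ τ ∈ dilTransl T, σ * τ ∉ translations (On R) (par T)

/-- The translations which map every block to a parallel one form a subgroup of the automorphism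
group. -/
def DilTranslGroup {R : Type u} [CommRing R] (T : Twist R) : Prop :=
  ∃ H : Subgroup (automorphisms (On R)), (H : Set (automorphisms (On R))) = dilTransl T

/-- For all points `p`, `q` exactly one translation which maps every block to a parallel one
maps `p` to `q`. -/
def SharplyTransitive {R : Type u} [CommRing R] (T : Twist R) : Prop :=
  ∀ p q : R × R, ∃! g : automorphisms (On R), g ∈ dilTransl T ∧ g.1.1 p = q

/-- At least three nonunits (`0` is one of them). -/
def ThreeNonunits (R : Type u) [CommRing R] : Prop :=
  ∃ s t : R, s ≠ 0 ∧ t ≠ 0 ∧ s ≠ t ∧ ¬ IsUnit s ∧ ¬ IsUnit t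

end Pool.Agent.Y212.HJ
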