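import Pool.Agent.Y212.HJ.Auto

/-!
# Examples of Hjelmslev rings
-/

set_option autoImplicit false

namespace Pool.Agent.Y212.HJ

universe u

/-- The dual numbers over a field. -/
theorem dual (K : Type u) [Field K] : IsHjelmslevRing (DualNumber K) where
  chain := by
    intro a b
    obtain ⟨c, hc | hc⟩ := DualNumber.exists_mul_left_or_mul_right a b
    · exact Or.inl ⟨c, hc.symm⟩
    · exact Or.inr ⟨c, hc.symm⟩
  zeroDivisor := by
    intro a ha
    rw [TrivSqZeroExt.isUnit_iff_isUnit_fst, isUnit_iff_ne_zero, not_not] at ha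
    refine ⟨DualNumber.eps, ?_, ?_⟩
    · intro h
      have := congrArg TrivSqZeroExt.snd h
      simp at this
    · ext
      · simp
      · simp [ha]
  notField := by
    refine ⟨DualNumber.eps, ?_, ?_⟩
    · intro h
      have := congrArg TrivSqZeroExt.snd h
      simp at this
    · rw [TrivSqZeroExt.isUnit_iff_isUnit_fst]
      simp

/-- The dual numbers over a field with more than two elements have three nonunits. -/
theorem dual_three (K : Type u) [Field K] (c : K) (h0 : c ≠ 0) (h1 : c ≠ 1) :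
    ∃ s t : DualNumber K, s ≠ 0 ∧ t ≠ 0 ∧ s ≠ t ∧ ¬ IsUnit s ∧ ¬ IsUnit t := by
  refine ⟨TrivSqZeroExt.inr 1, TrivSqZeroExt.inr c, ?_, ?_, ?_, ?_, ?_⟩
  · intro h
    have := congrArg TrivSqZeroExt.snd h
    simp at this
  · intro h
    have := congrArg TrivSqZeroExt.snd h
    simp at this
    exact h0 this
  · intro h
    have := congrArg TrivSqZeroExt.snd h
    simp at this
    exact h1 this.symm
  · rw [TrivSqZeroExt.isUnit_iff_isUnit_fst]
    simp
  · rw [TrivSqZeroExt.isUnit_iff_isUnit_fst]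
    simp

/-- The residue rings `ℤ / p ^ n`, `n ≥ 2`. -/
theorem zmod (p n : ℕ) (hp : p.Prime) (hn : 2 ≤ n) : IsHjelmslevRing (ZMod (p ^ n)) := by
  have hpn : p ^ n ≠ 0 := pow_ne_zero _ hp.ne_zero
  haveI : NeZero (p ^ n) := ⟨hpn⟩
  have hnil : (p : ZMod (p ^ n)) ^ n = 0 := by
    have : ((p ^ n : ℕ) : ZMod (p ^ n)) = 0 := ZMod.natCast_self _
    rw [Nat.cast_pow] at this
    exact this
  have h1 : (1 : ZMod (p ^ n)) ≠ 0 := by
    have : Fact (1 < p ^ n) := ⟨Nat.one_lt_pow (by omega) hp.one_lt⟩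
    exact one_ne_zero
  -- every nonzero element is a unit times a power of `p`
  have key : ∀ a : ZMod (p ^ n), a ≠ 0 → ∃ (i : ℕ) (u : (ZMod (p ^ n))ˣ), a = p ^ i * u := by
    intro a ha
    have hv : a.val ≠ 0 := by
      intro h
      exact ha ((ZMod.val_eq_zero a).1 h)
    obtain ⟨i, k, hk, hik⟩ := Nat.exists_eq_pow_mul_and_not_dvd hv p hp.ne_one
    have hcop : Nat.Coprime k (p ^ n) :=
      Nat.Coprime.pow_right n ((Nat.Prime.coprime_iff_not_dvd hp).2 hk).symm
    refine ⟨i, ZMod.unitOfCoprime k hcop, ?_⟩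
    rw [ZMod.coe_unitOfCoprime, ← ZMod.natCast_zmod_val a, hik, Nat.cast_mul, Nat.cast_pow]
  refine ⟨?_, ?_, ?_⟩
  · intro a b
    by_cases ha : a = 0
    · right; rw [ha]; exact dvd_zero _
    by_cases hb : b = 0
    · left; rw [hb]; exact dvd_zero _
    obtain ⟨i, u, rfl⟩ := key a ha
    obtain ⟨j, v, rfl⟩ := key b hb
    rcases le_total i j with hij | hij
    · left
      rw [Units.dvd_mul_right, Units.mul_right_dvd]
      exact pow_dvd_pow _ hij
    · right
      rw [Units.dvd_mul_right, Units.mul_right_dvd]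
      exact pow_dvd_pow _ hij
  · intro a ha
    by_cases ha0 : a = 0
    · exact ⟨1, h1, by rw [ha0, mul_zero]⟩
    obtain ⟨i, u, rfl⟩ := key a ha0
    have hi : i ≠ 0 := by
      rintro rfl
      apply ha
      rw [pow_zero, one_mul]
      exact u.isUnit
    refine ⟨(p : ZMod (p ^ n)) ^ (n - 1), ?_, ?_⟩
    · rw [← Nat.cast_pow]
      intro h
      rw [ZMod.natCast_eq_zero_iff] at h
      have := (Nat.pow_dvd_pow_iff_le_right hp.one_lt).1 h
      omega
    · rw [← mul_assoc, ← pow_add]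
      have : n - 1 + i = n + (i - 1) := by omega
      rw [this, pow_add, hnil]
      ring
  · refine ⟨(p : ZMod (p ^ n)), ?_, ?_⟩
    · intro h
      rw [ZMod.natCast_eq_zero_iff] at h
      have h2 : p ^ n ∣ p ^ 1 := by simpa using h
      have := (Nat.pow_dvd_pow_iff_le_right hp.one_lt).1 h2
      omega
    · intro hu
      have := hu.pow n
      rw [hnil, isUnit_zero_iff] at this
      exact h1 this.symm

/-- `ℤ / p ^ n` has three nonunits if `p ^ n > 4`, `n ≥ 2`. -/
theorem zmod_three (p n : ℕ) (hp : p.Prime) (hn : 2 ≤ n) (h4 : 4 < p ^ n) :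
    ∃ s t : ZMod (p ^ n), s ≠ 0 ∧ t ≠ 0 ∧ s ≠ t ∧ ¬ IsUnit s ∧ ¬ IsUnit t := by
  have hpn : p ^ n ≠ 0 := pow_ne_zero _ hp.ne_zero
  haveI : NeZero (p ^ n) := ⟨hpn⟩
  have hdvd : p ∣ p ^ n := dvd_pow_self p (by omega)
  have h2p : 2 * p < p ^ n := by
    rcases Nat.lt_or_ge 2 p with h | h
    · calc 2 * p < p * p := Nat.mul_lt_mul_of_pos_right h hp.pos
        _ = p ^ 2 := (sq p).symm
        _ ≤ p ^ n := Nat.pow_le_pow_right hp.pos hn
    · have : p = 2 := le_antisymm h hp.two_le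
      subst this
      omega
  have hnu : ∀ k : ℕ, ¬ IsUnit ((k * p : ℕ) : ZMod (p ^ n)) := by
    intro k hu
    rw [ZMod.isUnit_iff_coprime] at hu
    have h1 : p ∣ Nat.gcd (k * p) (p ^ n) := Nat.dvd_gcd (Dvd.intro_left k rfl) hdvd
    rw [Nat.Coprime.gcd_eq_one hu] at h1
    exact hp.one_lt.ne' (Nat.dvd_one.1 h1)
  have hval : ∀ k : ℕ, k * p < p ^ n → ((k * p : ℕ) : ZMod (p ^ n)).val = k * p :=
    fun k hk => ZMod.val_natCast_of_lt hk
  have hp0 := hp.pos
  refine ⟨((1 * p : ℕ) : ZMod (p ^ n)), ((2 * p : ℕ) : ZMod (p ^ n)), ?_, ?_, ?_, hnu 1, hnu 2⟩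
  · intro h
    have := congrArg ZMod.val h
    rw [hval 1 (by omega), ZMod.val_zero] at this
    omega
  · intro h
    have := congrArg ZMod.val h
    rw [hval 2 h2p, ZMod.val_zero] at this
    omega
  · intro h
    have := congrArg ZMod.val h
    rw [hval 1 (by omega), hval 2 h2p] at this
    omega

end Pool.Agent.Y212.HJ
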