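import Pool.Agent.Y212.HJ.Defs

/-!
# The affine plane over a Hjelmslev ring is an affine Hjelmslev plane, for every twist
-/

set_option autoImplicit false

namespace Pool.Agent.Y212.HJ

open Pool.Agent.Results.MP_43980c_co.TranslationsNotGroup

universe u

variable {R : Type u} [CommRing R]

lemma IsHjelmslevRing.nontrivial (h : IsHjelmslevRing R) : Nontrivial R := by
  obtain ⟨t, ht, _⟩ := h.notField
  exact ⟨⟨t, 0, ht⟩⟩

lemma IsHjelmslevRing.isLocalRing (h : IsHjelmslevRing R) : IsLocalRing R := by
  haveI := h.nontrivial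
  refine IsLocalRing.of_nonunits_add ?_
  intro a b ha hb hab
  rcases h.chain a b with ⟨c, rfl⟩ | ⟨c, rfl⟩
  · have : IsUnit (a * (1 + c)) := by
      have e : a * (1 + c) = a + a * c := by ring
      rw [e]; exact hab
    exact ha (isUnit_of_mul_isUnit_left this)
  · have : IsUnit (b * (c + 1)) := by
      have e : b * (c + 1) = b * c + b := by ring
      rw [e]; exact hab
    exact hb (isUnit_of_mul_isUnit_left this)

section Local

variable [IsLocalRing R]

/-- reduction -/
noncomputable abbrev r (a : R) : IsLocalRing.ResidueField R := IsLocalRing.residue R a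

lemma r_zero_iff (a : R) : r a = 0 ↔ ¬ IsUnit a := by
  rw [IsLocalRing.residue_eq_zero_iff, IsLocalRing.mem_maximalIdeal, mem_nonunits_iff]

lemma r_eq_iff (a b : R) : r a = r b ↔ ¬ IsUnit (a - b) := by
  rw [← r_zero_iff]
  show IsLocalRing.residue R a = IsLocalRing.residue R b ↔ IsLocalRing.residue R (a - b) = 0
  rw [map_sub, sub_eq_zero]

lemma r_add (a b : R) : r (a + b) = r a + r b := map_add _ _ _
lemma r_sub (a b : R) : r (a - b) = r a - r b := map_sub _ _ _
lemma r_mul (a b : R) : r (a * b) = r a * r b := map_mul _ _ _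
lemma r_neg (a : R) : r (-a) = - r a := map_neg _ _
lemma r_one : r (1 : R) = 1 := map_one _
lemma r_zero : r (0 : R) = 0 := map_zero _
lemma r_surj (a : IsLocalRing.ResidueField R) : ∃ x : R, r x = a :=
  IsLocalRing.residue_surjective a

omit [IsLocalRing R] in
lemma nonunit_mul_right {a : R} (ha : ¬ IsUnit a) (b : R) : ¬ IsUnit (a * b) :=
  fun h => ha (isUnit_of_mul_isUnit_left h)

omit [IsLocalRing R] in
lemma nonunit_mul_left {a : R} (ha : ¬ IsUnit a) (b : R) : ¬ IsUnit (b * a) :=
  fun h => ha (isUnit_of_mul_isUnit_right h)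

lemma Twist.perm_eq (T : Twist R) {n c0 y x : R} (h : y = n * x + c0) :
    T.perm c0 n = T.perm y n := by
  by_cases hn : IsUnit n
  · rw [T.fix _ _ hn, T.fix _ _ hn]
  · rw [T.congr c0 y]
    rw [← r_eq_iff, h, r_add, r_mul, (r_zero_iff n).2 hn]
    ring

lemma one_lt_encard_iff'' {α : Type*} (s : Set α) :
    1 < s.encard ↔ ∃ a ∈ s, ∃ b ∈ s, a ≠ b := by
  rw [Set.one_lt_encard_iff]
  constructor
  · rintro ⟨a, b, ha, hb, hab⟩; exact ⟨a, ha, b, hb, hab⟩
  · rintro ⟨a, ha, b, hb, hab⟩; exact ⟨a, b, ha, hb, hab⟩

omit [IsLocalRing R] in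
/-- Cancelling a unit. -/
lemma cancel {a b d : R} (hd : IsUnit d) (h : (a - b) * d = 0) : a = b := by
  have := (hd.mul_left_eq_zero).1 h
  exact sub_eq_zero.1 this

lemma near_iff (h : IsHjelmslevRing R) (x y z w : R) :
    1 < joinCount (On R) (x, y) (z, w) ↔ r x = r z ∧ r y = r w := by
  unfold joinCount
  rw [one_lt_encard_iff'']
  constructor
  · rintro ⟨a, ⟨ha1, ha2⟩, b, ⟨hb1, hb2⟩, hab⟩
    rw [r_eq_iff, r_eq_iff]
    rcases a with ⟨m, b0⟩ | ⟨m, b0⟩ <;> rcases b with ⟨n, c0⟩ | ⟨n, c0⟩ <;>
      simp only [On] at ha1 ha2 hb1 hb2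
    · have key : ¬ IsUnit (x - z) := by
        intro hu
        apply hab
        have hmn : m = n := cancel hu (by linear_combination hb1 - ha1 + ha2 - hb2)
        subst hmn
        have : b0 = c0 := by linear_combination hb1 - ha1
        rw [this]
      refine ⟨key, ?_⟩
      have e : y - w = (x - z) * m := by linear_combination ha1 - ha2
      rw [e]
      exact nonunit_mul_right key m
    · have key : ¬ IsUnit (x - z) := by
        have e : x - z = n.1 * (y - w) := by linear_combination hb1 - hb2
        rw [e]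
        exact nonunit_mul_right n.2 _
      refine ⟨key, ?_⟩
      have e : y - w = (x - z) * m := by linear_combination ha1 - ha2
      rw [e]
      exact nonunit_mul_right key m
    · have key : ¬ IsUnit (x - z) := by
        have e : x - z = m.1 * (y - w) := by linear_combination ha1 - ha2
        rw [e]
        exact nonunit_mul_right m.2 _
      refine ⟨key, ?_⟩
      have e : y - w = (x - z) * n := by linear_combination hb1 - hb2
      rw [e]
      exact nonunit_mul_right key n
    · have key : ¬ IsUnit (x - z) := by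
        have e : x - z = m.1 * (y - w) := by linear_combination ha1 - ha2
        rw [e]
        exact nonunit_mul_right m.2 _
      refine ⟨key, ?_⟩
      intro hu
      apply hab
      have hmn : m.1 = n.1 := cancel hu (by linear_combination hb1 - ha1 + ha2 - hb2)
      have hmn' : m = n := Subtype.ext hmn
      subst hmn'
      have : b0 = c0 := by linear_combination hb1 - ha1
      rw [this]
  · rintro ⟨h1, h2⟩
    rw [r_eq_iff] at h1 h2
    by_cases hdiv : (x - z) ∣ (y - w)
    · obtain ⟨m, hm⟩ := hdiv
      obtain ⟨s, hs0, hs⟩ := h.zeroDivisor _ h1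
      refine ⟨Sum.inl (m, y - m * x), ⟨?_, ?_⟩, Sum.inl (m + s, y - (m + s) * x), ⟨?_, ?_⟩, ?_⟩
      · simp only [On]; ring
      · simp only [On]; linear_combination -hm
      · simp only [On]; ring
      · simp only [On]; linear_combination -hm + hs
      · intro hh
        simp only [Sum.inl.injEq, Prod.mk.injEq, left_eq_add] at hh
        exact hs0 hh.1
    · obtain ⟨n, hn⟩ := (h.chain (x - z) (y - w)).resolve_left hdiv
      have hnn : ¬ IsUnit n := by
        intro hu
        apply hdiv
        obtain ⟨v, rfl⟩ := hu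
        refine ⟨(v⁻¹ : Rˣ), ?_⟩
        rw [hn, mul_assoc, Units.mul_inv, mul_one]
      obtain ⟨s, hs0, hs⟩ := h.zeroDivisor _ h2
      have hv : y - w ≠ 0 := fun h0 => hdiv (by rw [h0]; exact dvd_zero _)
      have hsn : ¬ IsUnit s := fun hu => hv ((hu.mul_right_eq_zero).1 hs)
      have hns : ¬ IsUnit (n + s) := by
        rw [← r_zero_iff, r_add, (r_zero_iff n).2 hnn, (r_zero_iff s).2 hsn, add_zero]
      refine ⟨Sum.inr (⟨n, hnn⟩, x - n * y), ⟨?_, ?_⟩, Sum.inr (⟨n + s, hns⟩, x - (n + s) * y),
        ⟨?_, ?_⟩, ?_⟩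
      · simp only [On]; ring
      · simp only [On]; linear_combination -hn
      · simp only [On]; ring
      · simp only [On]; linear_combination -hn + hs
      · intro hh
        simp only [Sum.inr.injEq, Prod.mk.injEq, Subtype.mk.injEq, left_eq_add] at hh
        exact hs0 hh.1

omit [IsLocalRing R] in
lemma joined (h : IsHjelmslevRing R) (p q : R × R) : 1 ≤ joinCount (On R) p q := by
  obtain ⟨x, y⟩ := p
  obtain ⟨z, w⟩ := q
  unfold joinCount
  rw [Set.one_le_encard_iff_nonempty]
  by_cases hdiv : (x - z) ∣ (y - w)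
  · obtain ⟨m, hm⟩ := hdiv
    refine ⟨Sum.inl (m, y - m * x), ?_, ?_⟩
    · simp only [On]; ring
    · simp only [On]; linear_combination -hm
  · obtain ⟨n, hn⟩ := (h.chain (x - z) (y - w)).resolve_left hdiv
    have hnn : ¬ IsUnit n := by
      intro hu
      apply hdiv
      obtain ⟨v, rfl⟩ := hu
      refine ⟨(v⁻¹ : Rˣ), ?_⟩
      rw [hn, mul_assoc, Units.mul_inv, mul_one]
    refine ⟨Sum.inr (⟨n, hnn⟩, x - n * y), ?_, ?_⟩
    · simp only [On]; ring
    · simp only [On]; linear_combination -hn

/-- Incidence in the ordinary affine plane over a field. -/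
def On' (K : Type u) [Field K] : K × K → (K × K) ⊕ K → Prop
  | (x, y), Sum.inl (m, b) => y = m * x + b
  | (x, _), Sum.inr b => x = b

/-- Reduction of points. -/
noncomputable def redPt : R × R → IsLocalRing.ResidueField R × IsLocalRing.ResidueField R
  | (x, y) => (r x, r y)

/-- Reduction of blocks. -/
noncomputable def redBl :
    Block R → (IsLocalRing.ResidueField R × IsLocalRing.ResidueField R) ⊕
      IsLocalRing.ResidueField R
  | Sum.inl (m, b) => Sum.inl (r m, r b)
  | Sum.inr (_, b) => Sum.inr (r b)

lemma blockNear_iff (h : IsHjelmslevRing R) (b c : Block R) :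
    redBl b = redBl c ↔ BlockNear (On R) b c := by
  constructor
  · intro hh
    rcases b with ⟨m, b⟩ | ⟨m, b⟩ <;> rcases c with ⟨n, c⟩ | ⟨n, c⟩ <;>
      simp only [redBl, Sum.inl.injEq, Sum.inr.injEq, Prod.mk.injEq, reduceCtorEq] at hh
    · obtain ⟨h1, h2⟩ := hh
      constructor
      · rintro ⟨x, y⟩ hx
        simp only [On] at hx
        refine ⟨(x, n * x + c), ?_, ?_⟩
        · simp only [On]
        · rw [near_iff h, hx, r_add, r_add, r_mul, r_mul, h1, h2]
          exact ⟨rfl, rfl⟩
      · rintro ⟨x, y⟩ hx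
        simp only [On] at hx
        refine ⟨(x, m * x + b), ?_, ?_⟩
        · simp only [On]
        · rw [near_iff h, hx, r_add, r_add, r_mul, r_mul, h1, h2]
          exact ⟨rfl, rfl⟩
    · have hm : r m.1 = 0 := (r_zero_iff _).2 m.2
      have hn : r n.1 = 0 := (r_zero_iff _).2 n.2
      constructor
      · rintro ⟨x, y⟩ hx
        simp only [On] at hx
        refine ⟨(n.1 * y + c, y), ?_, ?_⟩
        · simp only [On]
        · rw [near_iff h, hx, r_add, r_add, r_mul, r_mul, hm, hn, hh]
          exact ⟨by ring, rfl⟩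
      · rintro ⟨x, y⟩ hx
        simp only [On] at hx
        refine ⟨(m.1 * y + b, y), ?_, ?_⟩
        · simp only [On]
        · rw [near_iff h, hx, r_add, r_add, r_mul, r_mul, hm, hn, hh]
          exact ⟨by ring, rfl⟩
  · rintro ⟨h1, h2⟩
    rcases b with ⟨m, b⟩ | ⟨m, b⟩ <;> rcases c with ⟨n, c⟩ | ⟨n, c⟩
    · obtain ⟨⟨x, y⟩, hy, hn⟩ := h1 (0, b) (by simp [On])
      obtain ⟨⟨z, w⟩, hz, hn'⟩ := h1 (1, m + b) (by simp [On])
      rw [near_iff h] at hn hn'
      simp only [On] at hy hz
      have hb : r b = r c := by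
        rw [hn.2, hy, r_add, r_mul, ← hn.1, r_zero, mul_zero, zero_add]
      have hm : r m = r n := by
        have := hn'.2
        rw [hz, r_add, r_add, r_mul, ← hn'.1, r_one, mul_one, hb] at this
        exact add_right_cancel this
      simp only [redBl, hb, hm]
    · obtain ⟨⟨x, y⟩, hy, hn⟩ := h1 (0, b) (by simp [On])
      obtain ⟨⟨z, w⟩, hz, hn'⟩ := h1 (1, m + b) (by simp [On])
      rw [near_iff h] at hn hn'
      simp only [On] at hy hz
      have hnn : r n.1 = 0 := (r_zero_iff _).2 n.2
      have e1 : (0 : IsLocalRing.ResidueField R) = r c := by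
        rw [← r_zero, hn.1, hy, r_add, r_mul, hnn]; ring
      have e2 : (1 : IsLocalRing.ResidueField R) = r c := by
        rw [← r_one, hn'.1, hz, r_add, r_mul, hnn]; ring
      exact absurd (e2.trans e1.symm) one_ne_zero
    · obtain ⟨⟨x, y⟩, hy, hn⟩ := h2 (0, c) (by simp [On])
      obtain ⟨⟨z, w⟩, hz, hn'⟩ := h2 (1, n + c) (by simp [On])
      rw [near_iff h] at hn hn'
      simp only [On] at hy hz
      have hnn : r m.1 = 0 := (r_zero_iff _).2 m.2
      have e1 : (0 : IsLocalRing.ResidueField R) = r b := by
        rw [← r_zero, hn.1, hy, r_add, r_mul, hnn]; ring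
      have e2 : (1 : IsLocalRing.ResidueField R) = r b := by
        rw [← r_one, hn'.1, hz, r_add, r_mul, hnn]; ring
      exact absurd (e2.trans e1.symm) one_ne_zero
    · obtain ⟨⟨x, y⟩, hy, hn⟩ := h1 (b, 0) (by simp [On])
      rw [near_iff h] at hn
      simp only [On] at hy
      have hnn : r n.1 = 0 := (r_zero_iff _).2 n.2
      have : r b = r c := by
        rw [hn.1, hy, r_add, r_mul, hnn]; ring
      simp only [redBl, this]

lemma near_blocks (h : IsHjelmslevRing R) (b c : Block R) (hbc : BlockNear (On R) b c) :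
    meetCount (On R) b c ≠ 1 := by
  rw [← blockNear_iff h] at hbc
  unfold meetCount
  intro hone
  rw [Set.encard_eq_one] at hone
  obtain ⟨⟨x, y⟩, hx⟩ := hone
  have hmem : ((x, y) : R × R) ∈ {p : R × R | On R p b ∧ On R p c} := by
    rw [hx]; rfl
  have huniq : ∀ z : R × R, On R z b → On R z c → z = (x, y) := by
    intro z hz1 hz2
    have : z ∈ {p : R × R | On R p b ∧ On R p c} := ⟨hz1, hz2⟩
    rw [hx] at this
    exact this
  obtain ⟨hb, hc⟩ := hmem
  rcases b with ⟨m, b⟩ | ⟨m, b⟩ <;> rcases c with ⟨n, c⟩ | ⟨n, c⟩ <;>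
      simp only [redBl, Sum.inl.injEq, Sum.inr.injEq, Prod.mk.injEq, reduceCtorEq] at hbc
  · simp only [On] at hb hc
    obtain ⟨s, hs0, hs⟩ := h.zeroDivisor _ ((r_eq_iff m n).1 hbc.1)
    have := huniq (x + s, y + m * s)
      (by simp only [On]; linear_combination hb)
      (by simp only [On]; linear_combination hc + hs)
    simp only [Prod.mk.injEq, add_eq_left] at this
    exact hs0 this.1
  · simp only [On] at hb hc
    have hd : ¬ IsUnit (m.1 - n.1) := by
      rw [← r_eq_iff, (r_zero_iff _).2 m.2, (r_zero_iff _).2 n.2]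
    obtain ⟨s, hs0, hs⟩ := h.zeroDivisor _ hd
    have := huniq (x + m.1 * s, y + s)
      (by simp only [On]; linear_combination hb)
      (by simp only [On]; linear_combination hc + hs)
    simp only [Prod.mk.injEq, add_eq_left] at this
    exact hs0 this.2

lemma par_unique (T : Twist R) (p : R × R) (b : Block R) : ∃! c : Block R, On R p c ∧ par T b c := by
  obtain ⟨x, y⟩ := p
  rcases b with ⟨m, b⟩ | ⟨m, b⟩
  · set L := T.perm b m with hL
    set m' := (T.perm y).symm L with hm'
    refine ⟨Sum.inl (m', y - m' * x), ⟨?_, ?_⟩, ?_⟩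
    · simp only [On]; ring
    · simp only [par, label, Sum.inl.injEq]
      rw [T.perm_eq (n := m') (c0 := y - m' * x) (y := y) (x := x) (by ring), hm',
        Equiv.apply_symm_apply]
    · rintro c ⟨hc, hp⟩
      rcases c with ⟨n, c⟩ | ⟨n, c⟩
      · simp only [On] at hc
        simp only [par, label, Sum.inl.injEq] at hp
        rw [T.perm_eq hc] at hp
        have hn : n = m' := by
          rw [hm', hL, hp, Equiv.symm_apply_apply]
        have hc' : c = y - m' * x := by rw [← hn]; linear_combination -hc
        rw [hc', hn]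
      · simp [par, label] at hp
  · refine ⟨Sum.inr (m, x - m.1 * y), ⟨?_, ?_⟩, ?_⟩
    · simp only [On]; ring
    · simp only [par, label]
    · rintro c ⟨hc, hp⟩
      rcases c with ⟨n, c⟩ | ⟨n, c⟩
      · simp [par, label] at hp
      · simp only [On] at hc
        simp only [par, label, Sum.inr.injEq] at hp
        subst hp
        have hc' : c = x - m.1 * y := by linear_combination -hc
        rw [hc']

lemma affine' (K : Type u) [Field K] : IsAffinePlane (On' K) where
  join := by
    rintro ⟨x, y⟩ ⟨z, w⟩ hne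
    by_cases hx : x = z
    · subst hx
      have hy : y ≠ w := fun h => hne (by rw [h])
      refine ⟨Sum.inr x, ⟨rfl, rfl⟩, ?_⟩
      rintro (⟨m, b⟩ | b) ⟨h1, h2⟩
      · simp only [On'] at h1 h2
        exact absurd (h1.trans h2.symm) hy
      · simp only [On'] at h1
        rw [h1]
    · have hx' : x - z ≠ 0 := sub_ne_zero.mpr hx
      set m := (y - w) / (x - z) with hm
      have hm' : m * (x - z) = y - w := by
        rw [hm]; exact div_mul_cancel₀ _ hx'
      refine ⟨Sum.inl (m, y - m * x), ⟨?_, ?_⟩, ?_⟩
      · simp only [On']; ring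
      · simp only [On']; linear_combination hm'
      · rintro (⟨n, b⟩ | b) ⟨h1, h2⟩
        · simp only [On'] at h1 h2
          have hn : n = m := by
            have : (n - m) * (x - z) = 0 := by linear_combination h2 - h1 - hm'
            rcases mul_eq_zero.mp this with h | h
            · exact sub_eq_zero.mp h
            · exact absurd h hx'
          rw [hn] at h1 ⊢
          have hb : b = y - m * x := by linear_combination -h1
          rw [hb]
        · simp only [On'] at h1 h2
          exact absurd (h1.trans h2.symm) hx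
  playfair := by
    rintro ⟨x, y⟩ (⟨m, b⟩ | b)
    · refine ⟨Sum.inl (m, y - m * x), ⟨by simp only [On']; ring, ?_⟩, ?_⟩
      · by_cases h : y - m * x = b
        · left; rw [h]
        · right
          rintro ⟨z, w⟩ ⟨h1, h2⟩
          simp only [On'] at h1 h2
          apply h
          linear_combination h1 - h2
      · rintro (⟨n, c⟩ | c) ⟨h1, h2⟩
        · simp only [On'] at h1
          rcases h2 with h2 | h2
          · simp only [Sum.inl.injEq, Prod.mk.injEq] at h2
            rw [h2.1] at h1 ⊢
            have : c = y - m * x := by linear_combination -h1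
            rw [this]
          · have hn : n = m := by
              by_contra hnm
              have hnm' : m - n ≠ 0 := fun h => hnm (sub_eq_zero.mp h).symm
              have hz : (c - b) / (m - n) * (m - n) = c - b := div_mul_cancel₀ _ hnm'
              apply h2 ((c - b) / (m - n), m * ((c - b) / (m - n)) + b)
              simp only [On']
              exact ⟨trivial, by linear_combination hz⟩
            rw [hn] at h1 ⊢
            have : c = y - m * x := by linear_combination -h1
            rw [this]
        · rcases h2 with h2 | h2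
          · simp at h2
          · exfalso
            apply h2 (c, m * c + b)
            simp [On']
    · refine ⟨Sum.inr x, ⟨rfl, ?_⟩, ?_⟩
      · by_cases h : x = b
        · left; rw [h]
        · right
          rintro ⟨z, w⟩ ⟨h1, h2⟩
          simp only [On'] at h1 h2
          exact h (h2.symm.trans h1)
      · rintro (⟨n, c⟩ | c) ⟨h1, h2⟩
        · rcases h2 with h2 | h2
          · simp at h2
          · exfalso
            apply h2 (b, n * b + c)
            simp [On']
        · simp only [On'] at h1
          rw [h1]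
  triangle := by
    refine ⟨(0, 0), (1, 0), (0, 1), ?_⟩
    rintro ⟨(⟨m, b⟩ | b), h1, h2, h3⟩
    · simp only [On'] at h1 h3
      have : (1 : K) = 0 := by rw [h3]; exact h1.symm
      exact absurd this one_ne_zero
    · simp only [On'] at h1 h2
      have : (1 : K) = 0 := by rw [h2]; exact h1.symm
      exact absurd this one_ne_zero

lemma plane_local (h : IsHjelmslevRing R) (T : Twist R) :
    IsAffineHjelmslevPlane (On R) (par T) where
  joined := joined h
  par_equiv := ⟨fun _ => rfl, fun h => h.symm, fun h1 h2 => h1.trans h2⟩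
  par_unique := par_unique T
  near_blocks := fun b c _ hbc => near_blocks h b c hbc
  quotient := by
    refine ⟨IsLocalRing.ResidueField R × IsLocalRing.ResidueField R,
      (IsLocalRing.ResidueField R × IsLocalRing.ResidueField R) ⊕ IsLocalRing.ResidueField R,
      On' (IsLocalRing.ResidueField R), redPt, redBl, affine' _, ?_, ?_, ?_, ?_, ?_,
      blockNear_iff h⟩
    · rintro ⟨x, y⟩
      obtain ⟨x, rfl⟩ := r_surj x
      obtain ⟨y, rfl⟩ := r_surj y
      exact ⟨(x, y), rfl⟩
    · rintro (⟨m, b⟩ | b)
      · obtain ⟨m, rfl⟩ := r_surj m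
        obtain ⟨b, rfl⟩ := r_surj b
        exact ⟨Sum.inl (m, b), rfl⟩
      · obtain ⟨b, rfl⟩ := r_surj b
        exact ⟨Sum.inr (⟨0, not_isUnit_zero⟩, b), rfl⟩
    · rintro ⟨x, y⟩ (⟨m, b⟩ | ⟨m, b⟩) hh
      · simp only [On] at hh
        show r y = r m * r x + r b
        rw [hh, r_add, r_mul]
      · simp only [On] at hh
        show r x = r b
        rw [hh, r_add, r_mul, (r_zero_iff _).2 m.2]; ring
    · rintro ⟨x, y⟩ (⟨m, b⟩ | b) hh
      · obtain ⟨x, rfl⟩ := r_surj x
        obtain ⟨m, rfl⟩ := r_surj m
        obtain ⟨b, rfl⟩ := r_surj b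
        simp only [On'] at hh
        refine ⟨(x, m * x + b), Sum.inl (m, b), by simp only [On], ?_, rfl⟩
        show (r x, r (m * x + b)) = _
        rw [r_add, r_mul, hh]
      · obtain ⟨y, rfl⟩ := r_surj y
        obtain ⟨b, rfl⟩ := r_surj b
        simp only [On'] at hh
        refine ⟨(b, y), Sum.inr (⟨0, not_isUnit_zero⟩, b), by simp [On], ?_, rfl⟩
        show (r b, r y) = _
        rw [hh]
    · rintro ⟨x, y⟩ ⟨z, w⟩
      rw [near_iff h]
      simp only [redPt, Prod.mk.injEq]

end Local

/-- The affine plane over a Hjelmslev ring, with the parallelism of any twist, is an affine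
Hjelmslev plane. -/
theorem plane (h : IsHjelmslevRing R) (T : Twist R) :
    IsAffineHjelmslevPlane (On R) (par T) := by
  haveI := h.isLocalRing
  exact plane_local h T

end Pool.Agent.Y212.HJ
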